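import Mathlib
import Pool.Agent.H778.CR.Sharp
import Pool.Agent.H778.CR.Round

/-!
# The Komlós problem: the number of good signings in terms of the rank

Let `v_1, …, v_n` be vectors in `ℝ^d` and let `r` be the dimension of their span.

(1) For arbitrary vectors: if every linearly independent subfamily has a signing of value at most
`B`, then at least `2^n (r / (192 n))^{r/2}` signings of `v_1, …, v_n` have value at most `2 B`.

(2) If the vectors are in the unit ball and their entries are at most `δ ≤ 1`, then at least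
`2^n (r / (192 n))^{r/2}` signings have the property that for every `k` the `k`-th coordinate of
`∑ ε_i v_i` is at most `C min (Λ_k^{1/4}, 1 + δ (1 + log (1/δ))^{3/2} Λ_k^{1/2})`, where
`Λ_k = 1 + log (min (r, k))` (coordinates numbered from `1`) and `C` is absolute.

(3) Komlós's conjecture holds if and only if there is a constant `C` such that for all vectors in
the unit ball at least `2^n (r / (C n))^{r/2}` signings have value at most `C`.

(4) This number of signings is optimal: for all `1 ≤ r ≤ n` there are `n` unit vectors of rank `r`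
such that for every `D ≥ 1` at most `2^n (4 D² r / n)^{r/2}` signings have value at most `D`.
-/

set_option autoImplicit false

namespace Pool.Agent.Results.MP_c81d26_co.CountInRank

open Finset
open Pool.Agent.H778.CR (val rounding)

/-- The vectors `v_1, …, v_n` lie in the closed Euclidean unit ball of `ℝ^d`. -/
def InBall {n d : ℕ} (v : Fin n → Fin d → ℝ) : Prop := ∀ i, ∑ k, v i k ^ 2 ≤ 1

/-- The dimension of the linear span of the vectors. -/
noncomputable def rank {n d : ℕ} (v : Fin n → Fin d → ℝ) : ℕ :=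
  Module.finrank ℝ (Submodule.span ℝ (Set.range v))

/-- The number of signings `ε` for which the `k`-th coordinate of `∑ ε_i v_i` is at most `R k` in
absolute value for every `k`. -/
noncomputable def count {n d : ℕ} (v : Fin n → Fin d → ℝ) (R : Fin d → ℝ) : ℕ :=
  Nat.card {ε : Fin n → ℤˣ // ∀ k, |∑ i, ((ε i : ℤ) : ℝ) * v i k| ≤ R k}

theorem units_real (u : ℤˣ) : ((u : ℤ) : ℝ) = 1 ∨ ((u : ℤ) : ℝ) = -1 := by
  rcases Int.units_eq_one_or u with h | h <;> simp [h]

theorem part1 (n d : ℕ) (v : Fin n → Fin d → ℝ) (B : ℝ)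
    (h : ∀ I : Finset (Fin n), LinearIndependent ℝ (fun i : I => v i) →
      ∃ ε : Fin n → ℤˣ, ∀ k, |∑ i ∈ I, ((ε i : ℤ) : ℝ) * v i k| ≤ B) :
    2 ^ n * ((rank v : ℝ) / (192 * n)) ^ ((rank v : ℝ) / 2) ≤ (count v (fun _ => 2 * B) : ℝ) := by
  refine Pool.Agent.H778.CR.transfer v B fun I hI => ?_
  obtain ⟨ε, hε⟩ := h I hI
  exact ⟨fun i => ((ε i : ℤ) : ℝ), fun i => units_real _, hε⟩

theorem part2 (n d : ℕ) (v : Fin n → Fin d → ℝ) (δ : ℝ) (hv : InBall v) (h0 : 0 < δ)
    (h1 : δ ≤ 1) (hent : ∀ i k, |v i k| ≤ δ) :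
    2 ^ n * ((rank v : ℝ) / (192 * n)) ^ ((rank v : ℝ) / 2) ≤
      (count v (fun k => 60000000 * val δ (rank v) k) : ℝ) := by
  refine Pool.Agent.H778.CR.counting v
    (fun e => ∀ k, |∑ i, e i * v i k| ≤ 60000000 * val δ (rank v) k)
    fun x hx hx0 ⟨J, hJ, _, hJx⟩ => ?_
  obtain ⟨ε, hε1, hε2⟩ := rounding n d v δ hv h0 h1 hent (rank v) x hx J hJ hJx
  refine ⟨fun i => ((ε i : ℤ) : ℝ), fun i => units_real _, fun k => ?_, hε1⟩
  refine le_trans (le_of_eq ?_) (hε2 k)
  congr 1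
  have h3 : ∑ j, x j * v j k = 0 := by
    have := congrFun hx0 k
    rw [Finset.sum_apply] at this
    simpa using this
  simp only [sub_mul, Finset.sum_sub_distrib, h3, sub_zero]

theorem part3 :
    (∃ c : ℝ, 0 < c ∧ ∀ (n d : ℕ) (v : Fin n → Fin d → ℝ), InBall v →
      ∃ ε : Fin n → ℝ, (∀ i, ε i = 1 ∨ ε i = -1) ∧ ∀ k, |∑ i, ε i * v i k| ≤ c) ↔
    ∃ C : ℝ, 0 < C ∧ ∀ (n d : ℕ) (v : Fin n → Fin d → ℝ), InBall v →
      2 ^ n * ((rank v : ℝ) / (C * n)) ^ ((rank v : ℝ) / 2) ≤ (count v (fun _ => C) : ℝ) := by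
  classical
  constructor
  · rintro ⟨c, hc, h⟩
    set C : ℝ := max (2 * c) 192 with hC
    have hC0 : 0 < C := lt_of_lt_of_le (by norm_num) (le_max_right _ _)
    refine ⟨C, hC0, fun n d v hv => ?_⟩
    have h1 := Pool.Agent.H778.CR.transfer v c (fun I _ => by
      obtain ⟨ε, hε, hε2⟩ := h n d (fun i k => if i ∈ I then v i k else 0) (fun i => by
        refine le_trans (Finset.sum_le_sum fun k _ => ?_) (hv i)
        simp only
        split_ifs
        · exact le_rfl
        · simpa using sq_nonneg (v i k))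
      refine ⟨ε, hε, fun k => ?_⟩
      refine le_trans (le_of_eq ?_) (hε2 k)
      congr 1
      simp only [mul_ite, mul_zero]
      rw [← Finset.sum_filter, Finset.filter_mem_eq_inter, Finset.univ_inter])
    have h2 : 2 ^ n * ((rank v : ℝ) / (C * n)) ^ ((rank v : ℝ) / 2) ≤
        2 ^ n * ((rank v : ℝ) / (192 * n)) ^ ((rank v : ℝ) / 2) := by
      apply mul_le_mul_of_nonneg_left _ (by positivity)
      apply Real.rpow_le_rpow (by positivity) _ (by positivity)
      rcases Nat.eq_zero_or_pos n with hn | hn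
      · subst hn; simp
      · have hn' : (0:ℝ) < n := by exact_mod_cast hn
        apply div_le_div_of_nonneg_left (by positivity) (by positivity)
        exact mul_le_mul_of_nonneg_right (le_max_right _ _) hn'.le
    refine (h2.trans h1).trans ?_
    have h3 : Nat.card {ε : Fin n → ℤˣ // ∀ k, |∑ i, ((ε i : ℤ) : ℝ) * v i k| ≤ 2 * c} ≤
        count v (fun _ => C) := by
      unfold count
      apply Nat.card_le_card_of_injective
        (fun ε => ⟨ε.1, fun k => (ε.2 k).trans (le_max_left _ _)⟩ :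
          {ε : Fin n → ℤˣ // ∀ k, |∑ i, ((ε i : ℤ) : ℝ) * v i k| ≤ 2 * c} →
          {ε : Fin n → ℤˣ // ∀ k, |∑ i, ((ε i : ℤ) : ℝ) * v i k| ≤ C})
      intro a b hab
      apply Subtype.ext
      simpa using hab
    exact_mod_cast h3
  · rintro ⟨C, hC, h⟩
    refine ⟨C, hC, fun n d v hv => ?_⟩
    have h1 := h n d v hv
    have h2 : (0:ℝ) < 2 ^ n * ((rank v : ℝ) / (C * n)) ^ ((rank v : ℝ) / 2) := by
      apply mul_pos (by positivity)
      rcases Nat.eq_zero_or_pos (rank v) with hr | hr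
      · rw [hr]; simp
      · have hr' : (0:ℝ) < rank v := by exact_mod_cast hr
        have hn : 0 < n := by
          rcases Nat.eq_zero_or_pos n with hn | hn
          · subst hn
            exfalso
            unfold rank at hr
            rw [Set.range_eq_empty, Submodule.span_empty] at hr
            simp at hr
          · exact hn
        have hn' : (0:ℝ) < n := by exact_mod_cast hn
        positivity
    have h3 : 0 < count v (fun _ => C) := by exact_mod_cast lt_of_lt_of_le h2 h1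
    unfold count at h3
    obtain ⟨⟨ε, hε⟩⟩ := (Nat.card_pos_iff.1 h3).1
    exact ⟨fun i => ((ε i : ℤ) : ℝ), fun i => units_real _, hε⟩

theorem part4 (n r : ℕ) (hr : 1 ≤ r) (hn : r ≤ n) : ∃ v : Fin n → Fin r → ℝ,
    (∀ i, ∑ k, v i k ^ 2 = 1) ∧ rank v = r ∧ ∀ D : ℝ, 1 ≤ D →
      (count v (fun _ => D) : ℝ) ≤ 2 ^ n * (4 * D ^ 2 * r / n) ^ ((r : ℝ) / 2) := by
  refine ⟨Pool.Agent.H801R3.SB.cyc n hr, fun i => ?_, Pool.Agent.H778.CR.rk_cyc hr hn,
    fun D hD => Pool.Agent.H778.CR.sharp_count hr hn D hD⟩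
  have := Pool.Agent.H801R3.SB.cyc_norm (n := n) hr i
  rw [dotProduct] at this
  simpa [sq] using this

/-- **The number of good signings in terms of the rank**: see the header of the file. -/
theorem result :
    (∀ (n d : ℕ) (v : Fin n → Fin d → ℝ) (B : ℝ),
      (∀ I : Finset (Fin n), LinearIndependent ℝ (fun i : I => v i) →
        ∃ ε : Fin n → ℤˣ, ∀ k, |∑ i ∈ I, ((ε i : ℤ) : ℝ) * v i k| ≤ B) →
      2 ^ n * ((rank v : ℝ) / (192 * n)) ^ ((rank v : ℝ) / 2) ≤
        (count v (fun _ => 2 * B) : ℝ)) ∧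
    (∃ C : ℝ, ∀ (n d : ℕ) (v : Fin n → Fin d → ℝ) (δ : ℝ), InBall v → 0 < δ → δ ≤ 1 →
      (∀ i k, |v i k| ≤ δ) →
      2 ^ n * ((rank v : ℝ) / (192 * n)) ^ ((rank v : ℝ) / 2) ≤
        (count v (fun k => C * min
          ((1 + Real.log (min (rank v) (k + 1) : ℕ)) ^ (1 / 4 : ℝ))
          (1 + δ * (1 + Real.log (1 / δ)) ^ (3 / 2 : ℝ) *
            (1 + Real.log (min (rank v) (k + 1) : ℕ)) ^ (1 / 2 : ℝ))) : ℝ)) ∧
    ((∃ c : ℝ, 0 < c ∧ ∀ (n d : ℕ) (v : Fin n → Fin d → ℝ), InBall v →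
        ∃ ε : Fin n → ℝ, (∀ i, ε i = 1 ∨ ε i = -1) ∧ ∀ k, |∑ i, ε i * v i k| ≤ c) ↔
      ∃ C : ℝ, 0 < C ∧ ∀ (n d : ℕ) (v : Fin n → Fin d → ℝ), InBall v →
        2 ^ n * ((rank v : ℝ) / (C * n)) ^ ((rank v : ℝ) / 2) ≤
          (count v (fun _ => C) : ℝ)) ∧
    (∀ n r : ℕ, 1 ≤ r → r ≤ n → ∃ v : Fin n → Fin r → ℝ,
      (∀ i, ∑ k, v i k ^ 2 = 1) ∧ rank v = r ∧ ∀ D : ℝ, 1 ≤ D →
        (count v (fun _ => D) : ℝ) ≤ 2 ^ n * (4 * D ^ 2 * r / n) ^ ((r : ℝ) / 2)) :=
  ⟨part1, ⟨60000000, part2⟩, part3, part4⟩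

end Pool.Agent.Results.MP_c81d26_co.CountInRank
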